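import Mathlib
import Pool.Agent.H770R2.Kad.Props

/-!
Task REP (helper477): representations of `R` in which the centre acts by scalars and a given
matrix over `R` keeps its norm.
-/

open scoped ComplexOrder InnerProductSpace

noncomputable section

namespace H770R2.Kad

open H759R2.Kad

universe u v

namespace AREP

variable {R : Type u} [CStarAlgebra R] [PartialOrder R] [StarOrderedRing R] {m : ℕ}

theorem tens_apply (s : Matrix (Fin m) (Fin m) ℂ) (a : R) (i j : Fin m) :
    tens s a i j = s i j • a := rfl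

theorem tens_central (z : R) (hz : ∀ a, z * a = a * z) (X : CStarMatrix (Fin m) (Fin m) R) :
    tens 1 z * X = X * tens 1 z := by
  ext i k
  rw [CStarMatrix.mul_apply, CStarMatrix.mul_apply, Finset.sum_eq_single i,
    Finset.sum_eq_single k]
  · rw [tens_apply, tens_apply, Matrix.one_apply_eq, Matrix.one_apply_eq, one_smul, hz]
  · intro b _ hb
    rw [tens_apply, Matrix.one_apply_ne hb, zero_smul, mul_zero]
  · intro h
    exact absurd (Finset.mem_univ _) h
  · intro b _ hb
    rw [tens_apply, Matrix.one_apply_ne (Ne.symm hb), zero_smul, zero_mul]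
  · intro h
    exact absurd (Finset.mem_univ _) h

theorem tens_star (s : Matrix (Fin m) (Fin m) ℂ) (a : R) :
    star (tens s a) = tens (star s) (star a) := by
  ext i j
  rw [CStarMatrix.star_apply, tens_apply, tens_apply, star_smul, Matrix.star_apply]

theorem star_single (o : Fin m) : star (Matrix.single o o (1 : ℂ)) = Matrix.single o o (1 : ℂ) := by
  rw [Matrix.star_eq_conjTranspose, Matrix.conjTranspose_single, star_one]

section inner

variable {E : Type v} [NormedAddCommGroup E] [InnerProductSpace ℂ E] [CompleteSpace E]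

theorem amp_inj (w : R →ₗ[ℂ] (E →L[ℂ] E)) (X : CStarMatrix (Fin m) (Fin m) R) (o : Fin m) (x : E)
    (i : Fin m) : amp w (Fin m) X (inj o x) i = w (X i o) x := by
  rw [amp_apply, Finset.sum_eq_single o]
  · rw [inj_apply, if_pos rfl]
  · intro b _ hb
    rw [inj_apply, if_neg hb, map_zero]
  · intro h
    exact absurd (Finset.mem_univ _) h

theorem amp_single (w : R →ₗ[ℂ] (E →L[ℂ] E)) (b : R) (o : Fin m) (x : E) :
    amp w (Fin m) (tens (Matrix.single o o (1 : ℂ)) b) (inj o x) = inj o (w b x) := by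
  ext i
  rw [amp_inj, tens_apply, inj_apply, Matrix.single_apply]
  by_cases h : i = o
  · subst h
    simp
  · rw [if_neg h, if_neg (fun hh => h hh.1.symm), zero_smul, map_zero]
    rfl

theorem inner_inj (o : Fin m) (x y : E) : ⟪(inj o x : HH (Fin m) E), inj o y⟫_ℂ = ⟪x, y⟫_ℂ := by
  rw [PiLp.inner_apply, Finset.sum_eq_single o]
  · rw [inj_apply, inj_apply, if_pos rfl, if_pos rfl]
  · intro b _ hb
    rw [inj_apply, if_neg hb, inner_zero_left]
  · intro h
    exact absurd (Finset.mem_univ _) h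

theorem ampHom_injective (j : R →⋆ₐ[ℂ] (E →L[ℂ] E)) (hj : Function.Injective j) :
    Function.Injective (ampHom j (Fin m)) := by
  intro X Y h
  ext i k
  apply hj
  ext x
  have h1 : ampHom j (Fin m) X (inj k x) i = ampHom j (Fin m) Y (inj k x) i := by rw [h]
  rw [ampHom_apply, ampHom_apply, amp_inj, amp_inj] at h1
  exact h1

end inner

end AREP

open AREP in
theorem prove_rep (h1 : G_pure.{u, max u v}) (h1' : G_pure.{u, v}) (h2 : G_gns.{u})
    (h3 : K_units.{u, u}) : G_rep.{u, v} := by
  intro R _ _ _ E _ _ _ j hj m hm Y hY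
  obtain ⟨φ, hφ1, hφpos, hφY, hφc⟩ := h1' (CStarMatrix (Fin m) (Fin m) R) (HH (Fin m) E)
    (ampHom j (Fin m)) (ampHom_injective j hj) Y hY
  obtain ⟨K0, _, _, _, σ, Ω, hΩ, hσ, hdense⟩ := h2 (CStarMatrix (Fin m) (Fin m) R) φ hφ1 hφpos
  have hin : ∀ X : CStarMatrix (Fin m) (Fin m) R,
      ((‖σ X Ω‖ ^ 2 : ℝ) : ℂ) = φ (star X * X) := by
    intro X
    rw [← hσ, map_mul, map_star, ContinuousLinearMap.mul_apply,
      ContinuousLinearMap.star_eq_adjoint, ContinuousLinearMap.adjoint_inner_right,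
      inner_self_eq_norm_sq_to_K]
    norm_cast
  -- the centre
  have hcen : ∀ z : R, (∀ a, z * a = a * z) → σ (tens 1 z) = (φ (tens 1 z)) • 1 := by
    intro z hz
    set c := φ (tens 1 z) with hc
    set W : CStarMatrix (Fin m) (Fin m) R := tens 1 z - c • 1 with hW
    have hWc : ∀ a, W * a = a * W := by
      intro a
      rw [hW, sub_mul, mul_sub, tens_central z hz, smul_mul_assoc, mul_smul_comm, one_mul,
        mul_one]
    have hφW : φ W = 0 := by
      rw [hW, map_sub, map_smul, hφ1, ← hc, smul_eq_mul, mul_one, sub_self]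
    have h0 : ∀ b, σ W (σ b Ω) = 0 := by
      intro b
      have e1 : ((‖σ (W * b) Ω‖ ^ 2 : ℝ) : ℂ) = 0 := by
        rw [hin]
        have e2 : star (W * b) * (W * b) = W * (star (W * b) * b) := by
          rw [← mul_assoc, ← mul_assoc, ← hWc, mul_assoc]
        rw [e2, hφc W hWc, hφW, zero_mul]
      have e3 : ‖σ (W * b) Ω‖ ^ 2 = 0 := by exact_mod_cast e1
      have e4 : σ (W * b) Ω = 0 := by
        rw [← norm_eq_zero]
        exact pow_eq_zero_iff two_ne_zero |>.1 e3
      rw [map_mul] at e4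
      exact e4
    have h5 : (σ W : K0 → K0) = fun _ => 0 := by
      refine Continuous.ext_on hdense (σ W).continuous continuous_const ?_
      rintro _ ⟨b, rfl⟩
      exact h0 b
    have h6 : σ W = 0 := by
      ext x
      exact congrFun h5 x
    rw [hW, map_sub, map_smul, map_one, sub_eq_zero] at h6
    exact h6
  obtain ⟨K, _, _, _, w, V, hw, hV⟩ := h3 R K0 m hm σ.toLinearMap
    ⟨fun a b => map_mul σ a b, map_one σ⟩ (by
      intro s
      show star (σ (tens s 1)) = σ (tens (star s) 1)
      rw [← map_star, tens_star, star_one])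
  have hV' : ∀ X ξ, σ X (V ξ) = V (amp w (Fin m) X ξ) := hV
  have hstar : ∀ b, w (star b) = star (w b) := by
    intro b
    symm
    rw [ContinuousLinearMap.star_eq_adjoint]
    symm
    rw [ContinuousLinearMap.eq_adjoint_iff]
    intro x y
    let o : Fin m := ⟨0, hm⟩
    let X : CStarMatrix (Fin m) (Fin m) R := tens (Matrix.single o o (1 : ℂ)) b
    have hX : star X = tens (Matrix.single o o (1 : ℂ)) (star b) := by
      show star (tens _ _) = _
      rw [tens_star, star_single]
    have e1 : ⟪w (star b) x, y⟫_ℂ = ⟪σ (star X) (V (inj o x)), V (inj o y)⟫_ℂ := by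
      rw [hV', hX, amp_single, LinearIsometryEquiv.inner_map_map, inner_inj]
    have e2 : ⟪x, w b y⟫_ℂ = ⟪V (inj o x), σ X (V (inj o y))⟫_ℂ := by
      rw [hV', LinearIsometryEquiv.inner_map_map]
      show _ = ⟪(inj o x : HH (Fin m) K), amp w (Fin m) (tens (Matrix.single o o (1 : ℂ)) b) (inj o y)⟫_ℂ
      rw [amp_single, inner_inj]
    rw [e1, e2, map_star, ContinuousLinearMap.star_eq_adjoint,
      ContinuousLinearMap.adjoint_inner_left]
  let ρ : R →⋆ₐ[ℂ] (K →L[ℂ] K) :=
    { toFun := w
      map_one' := hw.one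
      map_mul' := hw.mul
      map_zero' := map_zero w
      map_add' := map_add w
      commutes' := by
        intro c
        show w (algebraMap ℂ R c) = _
        rw [Algebra.algebraMap_eq_smul_one, map_smul, hw.one, Algebra.algebraMap_eq_smul_one]
      map_star' := hstar }
  have hρ : ρ.toLinearMap = w := LinearMap.ext fun _ => rfl
  refine ⟨K, inferInstance, inferInstance, inferInstance, ρ, ?_, ?_⟩
  · have hρ' : amp ρ.toLinearMap (Fin m) Y = amp w (Fin m) Y := rfl
    have e1 : ‖σ Y Ω‖ = ‖Y‖ := by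
      have h4 : ((‖σ Y Ω‖ ^ 2 : ℝ) : ℂ) = (‖Y‖ ^ 2 : ℝ) := by rw [hin, hφY]
      have h5 : ‖σ Y Ω‖ ^ 2 = ‖Y‖ ^ 2 := by exact_mod_cast h4
      exact (pow_left_inj₀ (norm_nonneg _) (norm_nonneg _) two_ne_zero).1 h5
    have e2 : Ω = V (V.symm Ω) := (V.apply_symm_apply Ω).symm
    have e3 : ‖V.symm Ω‖ = 1 := by rw [LinearIsometryEquiv.norm_map, hΩ]
    have e4 : ‖σ Y Ω‖ = ‖amp w (Fin m) Y (V.symm Ω)‖ := by
      conv_lhs => rw [e2]
      rw [hV', LinearIsometryEquiv.norm_map]
    rw [hρ', ← e1, e4]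
    calc ‖amp w (Fin m) Y (V.symm Ω)‖ ≤ ‖amp w (Fin m) Y‖ * ‖V.symm Ω‖ :=
          ContinuousLinearMap.le_opNorm _ _
      _ = ‖amp w (Fin m) Y‖ := by rw [e3, mul_one]
  · intro z hz
    refine ⟨φ (tens 1 z), ?_⟩
    ext x
    show w z x = φ (tens 1 z) • x
    let o : Fin m := ⟨0, hm⟩
    have e1 : V (amp w (Fin m) (tens 1 z) (inj o x)) = V (φ (tens 1 z) • inj o x) := by
      rw [← hV', hcen z hz, map_smul]
      rfl
    have e2 := V.injective e1
    have e3 : amp w (Fin m) (tens 1 z) (inj o x) o = (φ (tens 1 z) • inj o x : HH (Fin m) K) o := by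
      rw [e2]
    rw [amp_inj, tens_apply, Matrix.one_apply_eq, one_smul, PiLp.smul_apply, inj_apply,
      if_pos rfl] at e3
    exact e3

end H770R2.Kad
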